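import Pool.Agent.helper41.PR.HG

/-! # Project pr, module HD -/

set_option autoImplicit false

namespace Pool.Agent.PR

open Matrix

section
variable {F V : Type} [Field F] [AddCommGroup V] [Module F V] {m : ℕ}
  {X Y : Fin m → Module.End F V} {Z : Module.End F V}

theorem HD_term (h : LH X Y Z) (i j : Fin m) (a b c d : F) :
    (a • X i + b • Y i) * (c • X j + d • Y j) - (c • X j + d • Y j) * (a • X i + b • Y i) =
      if i = j then (a * d - b * c) • Z else 0 := by
  have e1 : X i * Y j = Y j * X i + (if i = j then Z else 0) := by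
    rw [← h.xy i j]
    abel
  have e2 : Y i * X j = X j * Y i - (if j = i then Z else 0) := by
    rw [← h.xy j i]
    abel
  simp only [mul_add, add_mul, smul_mul_smul_comm]
  rw [h.xx i j, h.yy i j, e1, e2]
  by_cases hij : i = j
  · subst hij
    simp only [if_true]
    module
  · rw [if_neg hij, if_neg (fun hh => hij hh.symm), if_neg hij]
    module

theorem HD_comm (h : LH X Y Z) (e e' : (Fin m → F) × (Fin m → F)) :
    Mop X Y e * Mop X Y e' - Mop X Y e' * Mop X Y e = om e e' • Z := by
  unfold Mop om
  rw [Finset.sum_mul_sum, Finset.sum_mul_sum]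
  rw [Finset.sum_comm (s := Finset.univ) (t := Finset.univ)
    (f := fun i j => (e'.1 i • X i + e'.2 i • Y i) * (e.1 j • X j + e.2 j • Y j))]
  rw [← Finset.sum_sub_distrib]
  simp_rw [← Finset.sum_sub_distrib]
  rw [Finset.sum_smul]
  refine Finset.sum_congr rfl fun i _ => ?_
  rw [Finset.sum_congr rfl fun j _ => HD_term h i j _ _ _ _]
  simp

theorem HD_Z (h : LH X Y Z) (e : (Fin m → F) × (Fin m → F)) : Mop X Y e * Z = Z * Mop X Y e := by
  unfold Mop
  rw [Finset.sum_mul, Finset.mul_sum]
  refine Finset.sum_congr rfl fun i _ => ?_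
  rw [add_mul, mul_add, smul_mul_assoc, smul_mul_assoc, mul_smul_comm, mul_smul_comm, h.xz, h.yz]

theorem HD_nil0 (h : LH X Y Z) (hZ : Z = 0) (e : (Fin m → F) × (Fin m → F)) :
    IsNilpotent (Mop X Y e) := by
  subst hZ
  have hc : ∀ i j, Commute (e.1 i • X i + e.2 i • Y i) (e.1 j • X j + e.2 j • Y j) := by
    intro i j
    have := HD_term h i j (e.1 i) (e.2 i) (e.1 j) (e.2 j)
    rw [smul_zero, ite_self, sub_eq_zero] at this
    exact this
  refine Commute.isNilpotent_sum (fun i _ => ?_) (fun i j _ _ => hc i j)
  have hxy : Commute (X i) (Y i) := by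
    have := h.xy i i
    rw [if_pos rfl, sub_eq_zero] at this
    exact this
  exact ((hxy.smul_left _).smul_right _).isNilpotent_add ((h.nx i).smul _) ((h.ny i).smul _)

theorem HD_nil (h : LH X Y Z) (e : (Fin m → F) × (Fin m → F)) (c : F) :
    IsNilpotent (Mop X Y e + c • Z) := by
  set g := Mop X Y e + c • Z with hg
  have hgZ : Commute g Z := by
    have h1 : Commute (Mop X Y e) Z := HD_Z h e
    exact h1.add_left ((Commute.refl Z).smul_left c)
  -- on the kernel of `Z`
  have hst : ∀ f : Module.End F V, f * Z = Z * f → ∀ v ∈ LinearMap.ker Z, f v ∈ LinearMap.ker Z := by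
    intro f hf v hv
    rw [LinearMap.mem_ker] at hv ⊢
    have := LinearMap.congr_fun hf v
    rw [Module.End.mul_apply, Module.End.mul_apply, hv, map_zero] at this
    exact this.symm
  have h1 := HG_restrict h (LinearMap.ker Z) (fun i => hst _ (h.xz i)) (fun i => hst _ (h.yz i))
    (hst Z rfl)
  obtain ⟨N, hN⟩ := HD_nil0 h1 (by
    ext v
    exact LinearMap.mem_ker.1 v.2) e
  have hgN : ∀ v ∈ LinearMap.ker Z, (g ^ N) v = 0 := by
    intro v hv
    have key : ∀ k : ℕ, ∀ w : LinearMap.ker Z,
        (((Mop (fun i => (X i).restrict (hst _ (h.xz i))) (fun i => (Y i).restrict (hst _ (h.yz i))) e)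
          ^ k) w : V) = (g ^ k) (w : V) := by
      intro k
      induction k with
      | zero => intro w; rfl
      | succ k ih =>
        intro w
        rw [pow_succ, pow_succ, Module.End.mul_apply, Module.End.mul_apply, ih]
        congr 1
        rw [hg, LinearMap.add_apply, LinearMap.smul_apply, LinearMap.mem_ker.1 w.2, smul_zero,
          add_zero]
        unfold Mop
        simp only [LinearMap.sum_apply, LinearMap.add_apply, LinearMap.smul_apply,
          Submodule.coe_sum, Submodule.coe_add, Submodule.coe_smul, LinearMap.restrict_coe_apply]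
    have := key N ⟨v, hv⟩
    rw [hN] at this
    exact this.symm
  have hall : ∀ k : ℕ, ∀ v : V, (Z ^ k) v = 0 → (g ^ (N * k)) v = 0 := by
    intro k
    induction k with
    | zero =>
      intro v hv
      rw [pow_zero, Module.End.one_apply] at hv
      rw [hv, map_zero]
    | succ k ih =>
      intro v hv
      rw [Nat.mul_succ, pow_add, Module.End.mul_apply]
      apply ih
      have e1 : Z ((Z ^ k) v) = 0 := by
        rw [← Module.End.mul_apply, ← pow_succ']
        exact hv
      have e2 := hgN _ (LinearMap.mem_ker.2 e1)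
      rw [← Module.End.mul_apply, ((hgZ.pow_left N).pow_right k).eq, Module.End.mul_apply] at e2
      exact e2
  obtain ⟨K, hK⟩ := h.nz
  refine ⟨N * K, ?_⟩
  ext v
  exact hall K v (by rw [hK]; rfl)

end

theorem HD : HD_stmt := by
  intro F V _ _ _ m X Y Z h
  exact ⟨fun e e' => HD_comm h e e', fun e c => HD_nil h e c⟩

end Pool.Agent.PR
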