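import Pool.Agent.helper48.PR.SpecH

/-! # Project pr, module HF -/

set_option autoImplicit false

namespace Pool.Agent.PR

open Matrix

section
variable {F V : Type} [Field F] [AddCommGroup V] [Module F V] {m : ℕ}

theorem HF_Mop_add (X Y : Fin m → Module.End F V) (e e' : (Fin m → F) × (Fin m → F)) :
    Mop X Y (e + e') = Mop X Y e + Mop X Y e' := by
  unfold Mop
  rw [← Finset.sum_add_distrib]
  refine Finset.sum_congr rfl fun i _ => ?_
  simp only [Prod.fst_add, Prod.snd_add, Pi.add_apply]
  module

theorem HF_Mop_smul (X Y : Fin m → Module.End F V) (c : F) (e : (Fin m → F) × (Fin m → F)) :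
    Mop X Y (c • e) = c • Mop X Y e := by
  unfold Mop
  rw [Finset.smul_sum]
  refine Finset.sum_congr rfl fun i _ => ?_
  simp only [Prod.smul_fst, Prod.smul_snd, Pi.smul_apply, smul_eq_mul]
  module

theorem HF_Z {X Y : Fin m → Module.End F V} {Z : Module.End F V} (h : LH X Y Z)
    (e : (Fin m → F) × (Fin m → F)) : Mop X Y e * Z = Z * Mop X Y e := by
  unfold Mop
  rw [Finset.sum_mul, Finset.mul_sum]
  refine Finset.sum_congr rfl fun i _ => ?_
  rw [add_mul, mul_add, smul_mul_assoc, smul_mul_assoc, mul_smul_comm, mul_smul_comm, h.xz, h.yz]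

/-- the map `(e, c) ↦ (Mop e + c Z) v`. -/
def HF_D (X Y : Fin m → Module.End F V) (Z : Module.End F V) (v : V) :
    (((Fin m → F) × (Fin m → F)) × F) →ₗ[F] V where
  toFun p := (Mop X Y p.1 + p.2 • Z) v
  map_add' p q := by
    rw [Prod.fst_add, Prod.snd_add, HF_Mop_add]
    simp only [LinearMap.add_apply, LinearMap.smul_apply, add_smul]
    abel
  map_smul' c p := by
    rw [Prod.smul_fst, Prod.smul_snd, HF_Mop_smul]
    simp only [LinearMap.add_apply, LinearMap.smul_apply, smul_add, smul_eq_mul, mul_smul,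
      RingHom.id_apply]

end

theorem HF (hHD : HD_stmt) (hHE : HE_stmt) : HF_stmt := by
  intro F V _ _ _ _ m X Y Z h hZ
  obtain ⟨hcomm, hnil⟩ := hHD F V m X Y Z h
  obtain ⟨v, hv⟩ : ∃ v, Z v ≠ 0 := by
    by_contra hcon
    push Not at hcon
    exact hZ (LinearMap.ext hcon)
  set D := HF_D X Y Z v with hD
  -- the kernel
  set K : Submodule F ((Fin m → F) × (Fin m → F)) :=
    (LinearMap.ker D).map (LinearMap.fst F ((Fin m → F) × (Fin m → F)) F) with hK
  have hKiso : ∀ e ∈ K, ∀ e' ∈ K, om e e' = 0 := by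
    rintro _ ⟨⟨e, c⟩, he, rfl⟩ _ ⟨⟨e', c'⟩, he', rfl⟩
    have h1 : (Mop X Y e + c • Z) v = 0 := he
    have h2 : (Mop X Y e' + c' • Z) v = 0 := he'
    have h3 : (Mop X Y e + c • Z) * (Mop X Y e' + c' • Z)
        - (Mop X Y e' + c' • Z) * (Mop X Y e + c • Z) = om e e' • Z := by
      rw [← hcomm e e']
      simp only [mul_add, add_mul, smul_mul_assoc, mul_smul_comm, HF_Z h]
      module
    have h4 := LinearMap.congr_fun h3 v
    rw [LinearMap.sub_apply, Module.End.mul_apply, Module.End.mul_apply, h1, h2, map_zero, map_zero,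
      sub_zero, LinearMap.smul_apply] at h4
    rcases smul_eq_zero.1 h4.symm with h5 | h5
    · exact h5
    · exact absurd h5 hv
  have hKdim : Module.finrank F K ≤ m := (hHE F m).1 K hKiso
  have hkerK : Module.finrank F (LinearMap.ker D) ≤ Module.finrank F K := by
    have hinj : Function.Injective (((LinearMap.fst F ((Fin m → F) × (Fin m → F)) F).comp
        (LinearMap.ker D).subtype).codRestrict K (fun p => ⟨p, p.2, rfl⟩)) := by
      rintro ⟨⟨e, c⟩, hp⟩ ⟨⟨e', c'⟩, hq⟩ hpq
      have h1 : e = e' := congrArg (fun z : K => (z : (Fin m → F) × (Fin m → F))) hpq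
      subst h1
      have h2 : (Mop X Y e + c • Z) v = 0 := hp
      have h3 : (Mop X Y e + c' • Z) v = 0 := hq
      have h4 : (c - c') • Z v = 0 := by
        rw [sub_smul]
        rw [LinearMap.add_apply, LinearMap.smul_apply] at h2 h3
        rw [← sub_eq_zero.2 (h2.trans h3.symm)]
        abel
      rcases smul_eq_zero.1 h4 with h5 | h5
      · have h6 : c = c' := sub_eq_zero.1 h5
        subst h6
        rfl
      · exact absurd h5 hv
    exact LinearMap.finrank_le_finrank_of_injective hinj
  have hrn := LinearMap.finrank_range_add_finrank_ker D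
  have hdom : Module.finrank F (((Fin m → F) × (Fin m → F)) × F) = m + m + 1 := by
    simp [Module.finrank_prod]
  have hvr : v ∉ LinearMap.range D := by
    rintro ⟨⟨e, c⟩, hec⟩
    have h1 : (Mop X Y e + c • Z) v = v := hec
    obtain ⟨N, hN⟩ := hnil e c
    have h2 : ∀ k : ℕ, ((Mop X Y e + c • Z) ^ k) v = v := by
      intro k
      induction k with
      | zero => rfl
      | succ k ih => rw [pow_succ, Module.End.mul_apply, h1, ih]
    have h3 := h2 N
    rw [hN] at h3
    apply hv
    rw [← h3]
    simp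
  have hlt : Module.finrank F (LinearMap.range D) < Module.finrank F V := by
    refine Submodule.finrank_lt ?_
    intro htop
    exact hvr (htop ▸ Submodule.mem_top)
  omega

end Pool.Agent.PR
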