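import Pool.Agent.helper48.PR.SpecH

/-! # Project pr, module HG -/

set_option autoImplicit false

namespace Pool.Agent.PR

open Matrix

theorem HG_restrict {F V : Type} [Field F] [AddCommGroup V] [Module F V] {m : ℕ}
    {X Y : Fin m → Module.End F V} {Z : Module.End F V} (h : LH X Y Z) (W : Submodule F V)
    (hX : ∀ i, ∀ v ∈ W, X i v ∈ W) (hY : ∀ i, ∀ v ∈ W, Y i v ∈ W) (hZ : ∀ v ∈ W, Z v ∈ W) :
    LH (fun i => (X i).restrict (hX i)) (fun i => (Y i).restrict (hY i)) (Z.restrict hZ) := by
  refine ⟨fun i => ?_, fun i => ?_, fun i j => ?_, fun i j => ?_, fun i j => ?_, fun i => ?_,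
    fun i => ?_, ?_⟩
  · ext v
    exact LinearMap.congr_fun (h.xz i) (v : V)
  · ext v
    exact LinearMap.congr_fun (h.yz i) (v : V)
  · ext v
    exact LinearMap.congr_fun (h.xx i j) (v : V)
  · ext v
    exact LinearMap.congr_fun (h.yy i j) (v : V)
  · ext v
    have e := LinearMap.congr_fun (h.xy i j) (v : V)
    split_ifs at e ⊢ with hij
    · exact e
    · exact e
  · exact Module.End.isNilpotent.restrict (hX i) (h.nx i)
  · exact Module.End.isNilpotent.restrict (hY i) (h.ny i)
  · exact Module.End.isNilpotent.restrict hZ h.nz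

theorem HG (hHF : HF_stmt) : HG_stmt := by
  intro F V _ _ _ _ m hm X Y Z h hZZ
  -- the ranges of the powers are stable
  have hstab : ∀ (k : ℕ) (f : Module.End F V), f * Z = Z * f →
      ∀ v ∈ LinearMap.range (Z ^ k), f v ∈ LinearMap.range (Z ^ k) := by
    rintro k f hf v ⟨u, rfl⟩
    refine ⟨f u, ?_⟩
    have hc : Commute f Z := hf
    exact (LinearMap.congr_fun (hc.pow_right k).eq u).symm
  have hHFk : ∀ k : ℕ, Z ^ (k + 1) ≠ 0 → m + 2 ≤ Module.finrank F (LinearMap.range (Z ^ k)) := by
    intro k hk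
    have h1 := HG_restrict h (LinearMap.range (Z ^ k)) (fun i => hstab k _ (h.xz i))
      (fun i => hstab k _ (h.yz i)) (hstab k Z rfl)
    refine hHF F _ m _ _ _ h1 ?_
    intro h0
    apply hk
    ext v
    have e := LinearMap.congr_fun h0 ⟨(Z ^ k) v, ⟨v, rfl⟩⟩
    have e2 := congrArg Subtype.val e
    rw [pow_succ']
    exact e2
  -- the minimal exponent
  classical
  obtain ⟨N, hN⟩ := h.nz
  have hex : ∃ p, Z ^ p = 0 := ⟨N, hN⟩
  set p := Nat.find hex with hp
  have hp0 : Z ^ p = 0 := Nat.find_spec hex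
  have hpmin : ∀ q, q < p → Z ^ q ≠ 0 := fun q hq => Nat.find_min hex hq
  have hp3 : 3 ≤ p := by
    by_contra hcon
    apply hZZ
    have : Z ^ 2 = 0 := pow_eq_zero_of_le (by omega : p ≤ 2) hp0
    rw [← this, pow_two]
  obtain ⟨q, hq⟩ : ∃ q, p = q + 2 := ⟨p - 2, by omega⟩
  have hU : m + 2 ≤ Module.finrank F (LinearMap.range (Z ^ q)) := hHFk q (hpmin _ (by omega))
  have hR : m + 2 ≤ Module.finrank F (LinearMap.range (Z ^ 1)) := by
    refine hHFk 1 ?_
    exact hpmin 2 (by omega)
  rw [pow_one] at hR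
  -- dimension of the kernel
  have hrn := LinearMap.finrank_range_add_finrank_ker (Z.domRestrict (LinearMap.range (Z ^ q)))
  have hker : Module.finrank F (LinearMap.ker (Z.domRestrict (LinearMap.range (Z ^ q))))
      ≤ Module.finrank F (LinearMap.ker Z) := by
    have hinj : Function.Injective ((Submodule.subtype (LinearMap.range (Z ^ q))).restrict
        (p := LinearMap.ker (Z.domRestrict (LinearMap.range (Z ^ q)))) (q := LinearMap.ker Z)
        (fun x hx => by
          rw [LinearMap.mem_ker] at hx ⊢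
          exact hx)) := by
      intro a b hab
      apply Subtype.ext
      apply Subtype.ext
      exact congrArg (fun z : LinearMap.ker Z => (z : V)) hab
    exact LinearMap.finrank_le_finrank_of_injective hinj
  have hran : Module.finrank F (LinearMap.range (Z.domRestrict (LinearMap.range (Z ^ q))))
      ≤ Module.finrank F (LinearMap.ker Z) := by
    refine Submodule.finrank_mono ?_
    rintro _ ⟨⟨_, ⟨u, rfl⟩⟩, rfl⟩
    rw [LinearMap.mem_ker]
    have e : (Z ^ (q + 2)) u = 0 := by
      rw [← hq, hp0]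
      rfl
    rw [pow_succ', pow_succ'] at e
    exact e
  have hV := LinearMap.finrank_range_add_finrank_ker Z
  omega

end Pool.Agent.PR
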