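import Pool.Agent.helper48.PR.SpecH

/-! # Project pr, module HK -/

set_option autoImplicit false

namespace Pool.Agent.PR

open Matrix

/-- commuting nilpotent operators on a nonzero subspace have a common kernel vector. -/
theorem HK_common {F V : Type} [Field F] [AddCommGroup V] [Module F V] {ι : Type}
    (T : ι → Module.End F V) (W : Submodule F V) (hst : ∀ i, ∀ w ∈ W, T i w ∈ W)
    (hcomm : ∀ i j, ∀ w ∈ W, T i (T j w) = T j (T i w)) (hnil : ∀ i, IsNilpotent (T i))
    (hW : ∃ w ∈ W, w ≠ 0) (s : Finset ι) : ∃ w ∈ W, w ≠ 0 ∧ ∀ i ∈ s, T i w = 0 := by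
  classical
  induction s using Finset.induction_on with
  | empty =>
    obtain ⟨w, hw, hw0⟩ := hW
    exact ⟨w, hw, hw0, fun i hi => absurd hi (Finset.notMem_empty i)⟩
  | insert j s _ ih =>
    obtain ⟨w, hw, hw0, hws⟩ := ih
    obtain ⟨N, hN⟩ := hnil j
    have hex : ∃ k, ((T j) ^ k) w = 0 := ⟨N, by rw [hN]; rfl⟩
    have hk0 : Nat.find hex ≠ 0 := by
      intro h0
      have := Nat.find_spec hex
      rw [h0, pow_zero, Module.End.one_apply] at this
      exact hw0 this
    obtain ⟨k, hk⟩ := Nat.exists_eq_succ_of_ne_zero hk0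
    have hpw : ∀ n : ℕ, ((T j) ^ n) w ∈ W := by
      intro n
      induction n with
      | zero => exact hw
      | succ n ihn =>
        rw [pow_succ', Module.End.mul_apply]
        exact hst j _ ihn
    refine ⟨((T j) ^ k) w, hpw k, Nat.find_min hex (by omega), fun i hi => ?_⟩
    rw [Finset.mem_insert] at hi
    rcases hi with rfl | hi
    · have := Nat.find_spec hex
      rw [hk, Nat.succ_eq_add_one, pow_succ', Module.End.mul_apply] at this
      exact this
    · have hmv : ∀ n : ℕ, T i (((T j) ^ n) w) = 0 := by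
        intro n
        induction n with
        | zero => exact hws i hi
        | succ n ihn =>
          rw [pow_succ', Module.End.mul_apply, hcomm i j _ (hpw n), ihn, map_zero]
      exact hmv k

theorem HK : HK_stmt := by
  intro F V _ _ _ _ m X Y Z h hZZ hZ
  have hZ0 : ∀ w ∈ LinearMap.range Z, Z w = 0 := by
    rintro _ ⟨u, rfl⟩
    exact LinearMap.congr_fun hZZ u
  have hst : ∀ f : Module.End F V, f * Z = Z * f →
      ∀ w ∈ LinearMap.range Z, f w ∈ LinearMap.range Z := by
    rintro f hf _ ⟨u, rfl⟩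
    exact ⟨f u, (LinearMap.congr_fun hf u).symm⟩
  have hxy : ∀ i j, ∀ w ∈ LinearMap.range Z, X i (Y j w) = Y j (X i w) := by
    intro i j w hw
    have e := LinearMap.congr_fun (h.xy i j) w
    rw [LinearMap.sub_apply, Module.End.mul_apply, Module.End.mul_apply] at e
    rw [← sub_eq_zero, e]
    split_ifs
    · exact hZ0 w hw
    · rfl
  obtain ⟨w, ⟨v, rfl⟩, hw0, hws⟩ := HK_common (ι := Fin m ⊕ Fin m) (Sum.elim X Y)
    (LinearMap.range Z)
    (by
      rintro (i | i)
      · exact hst _ (h.xz i)
      · exact hst _ (h.yz i))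
    (by
      rintro (i | i) (j | j) w hw
      · exact LinearMap.congr_fun (h.xx i j) w
      · exact hxy i j w hw
      · exact (hxy j i w hw).symm
      · exact LinearMap.congr_fun (h.yy i j) w)
    (by
      rintro (i | i)
      · exact h.nx i
      · exact h.ny i)
    (by
      by_contra hcon
      push Not at hcon
      exact hZ (LinearMap.ext fun u => hcon _ ⟨u, rfl⟩))
    Finset.univ
  refine ⟨v, hw0, fun e => ?_⟩
  unfold Mop
  rw [LinearMap.sum_apply]
  refine Finset.sum_eq_zero fun i _ => ?_
  have h1 := hws (Sum.inl i) (Finset.mem_univ _)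
  have h2 := hws (Sum.inr i) (Finset.mem_univ _)
  rw [Sum.elim_inl] at h1
  rw [Sum.elim_inr] at h2
  rw [LinearMap.add_apply, LinearMap.smul_apply, LinearMap.smul_apply, h1, h2, smul_zero, smul_zero,
    add_zero]

end Pool.Agent.PR
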